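import Pool.Agent.SYS.Defs
import Pool.Agent.SYS.Num.Defs

/-!
# Project SYS: the two limits from the upper and the lower bounds

`sepLim`, `sscLim` : bounds along the filter `Fth θ` give `SepLim θ S`, `SSCLim θ S`.
-/

namespace SYS

open Filter Topology SST SYS.Num

/-- `P(sepsys ≤ c log n)` for `p = (n, g)`. -/
noncomputable def PS (c : ℝ) (p : ℕ × ℕ) : ℝ :=
  Pr (n := p.1) (g := p.2) fun q => q.HasSep (c * Real.log p.1)

/-- `P(sepsys* ≤ c log n)` for `p = (n, g)`. -/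
noncomputable def PSS (c : ℝ) (p : ℕ × ℕ) : ℝ :=
  Pr (n := p.1) (g := p.2) fun q => q.HasSSC (c * Real.log p.1)

theorem PS_mk (c : ℝ) (n g : ℕ) :
    PS c (n, g) = Pr (n := n) (g := g) fun q => q.HasSep (c * Real.log n) := rfl

theorem PSS_mk (c : ℝ) (n g : ℕ) :
    PSS c (n, g) = Pr (n := n) (g := g) fun q => q.HasSSC (c * Real.log n) := rfl

/-- Sequences with `g n / n → θ` tend to the filter `Fth θ`. -/
theorem tendsto_Fth {θ : ℝ} {g : ℕ → ℕ} (h : Tendsto (fun n => (g n : ℝ) / n) atTop (𝓝 θ)) :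
    Tendsto (fun n : ℕ => (n, g n)) atTop (Fth θ) := by
  rw [Fth, tendsto_inf, tendsto_comap_iff, tendsto_comap_iff]
  exact ⟨tendsto_id, h⟩

private theorem along {θ a : ℝ} {g : ℕ → ℕ} {u : ℕ × ℕ → ℝ}
    (h : Tendsto (fun n => (g n : ℝ) / n) atTop (𝓝 θ)) (hu : Tendsto u (Fth θ) (𝓝 a)) :
    Tendsto (fun n => u (n, g n)) atTop (𝓝 a) := hu.comp (tendsto_Fth h)

theorem sepLim {θ S : ℝ} (up : ∀ ε : ℝ, 0 < ε → Tendsto (PS (S + ε)) (Fth θ) (𝓝 1))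
    (low : ∀ ε : ℝ, 0 < ε → Tendsto (PS (S - ε)) (Fth θ) (𝓝 0)) : SepLim θ S := by
  intro g hg ε hε
  exact ⟨(along hg (low ε hε)).congr fun n => PS_mk _ _ _,
    (along hg (up ε hε)).congr fun n => PS_mk _ _ _⟩

theorem sscLim {θ S : ℝ} (up : ∀ ε : ℝ, 0 < ε → Tendsto (PSS (S + ε)) (Fth θ) (𝓝 1))
    (low : ∀ ε : ℝ, 0 < ε → Tendsto (PSS (S - ε)) (Fth θ) (𝓝 0)) : SSCLim θ S := by
  intro g hg ε hε
  exact ⟨(along hg (low ε hε)).congr fun n => PSS_mk _ _ _,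
    (along hg (up ε hε)).congr fun n => PSS_mk _ _ _⟩

end SYS
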