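import Pool.Agent.SST.S.NCyc
import Pool.Agent.GNH.Root

/-!
# Project SYS (MP_650813_pr, full question): common definitions, v1

Maps with holes (general boundary) and their numbers `mu`, partial triangulations (explored regions),
the target statements.  `RTri`, `HasSep`, `HasSSC` are the definitions of the graded hand-ins.
-/

namespace SYS

open Classical SST Filter Topology

/-! ## Maps with holes -/

/-- Darts: three for each of `F` triangles, `p i` for the hole `i`. -/
abbrev MD {ι : Type} (p : ι → ℕ) (F : ℕ) : Type := (Fin F × Fin 3) ⊕ (Σ i : ι, Fin (p i))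

/-- Face permutation: the cycles are the triangles and the holes. -/
def fp {ι : Type} (p : ι → ℕ) (F : ℕ) : Equiv.Perm (MD p F) :=
  Equiv.sumCongr (Equiv.prodCongr (Equiv.refl _) (finRotate 3))
    (Equiv.sigmaCongrRight fun i => finRotate (p i))

/-- The group generated by `φ` and `α` is transitive (the map is connected). -/
def MConn {D : Type} (φ α : Equiv.Perm D) : Prop :=
  ∀ S : Set D, S.Nonempty → (∀ d ∈ S, α d ∈ S ∧ φ d ∈ S) → S = Set.univ

/-- Maps: gluings `α` of the sides of the faces, connected, with `V` vertices (cycles of `φ α`). -/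
def Maps {ι : Type} (p : ι → ℕ) (F V : ℕ) : Set (Equiv.Perm (MD p F)) :=
  {α | (∀ d, α (α d) = d) ∧ (∀ d, α d ≠ d) ∧ MConn (fp p F) α ∧ ncyc (fp p F * α) = V}

/-- Number of connected maps with `F` (unlabelled) triangles, holes of perimeters `p i` (labelled and
rooted), `V` vertices.  A hole of perimeter `0` is a vertex: the only such map is the one vertex
sphere.  Genus: `2 V + 4 g + 2 #ι = 4 + F + ∑ p`. -/
noncomputable def mu {ι : Type} [Fintype ι] (p : ι → ℕ) (F V : ℕ) : ℚ :=
  if ∀ i, p i ≠ 0 then ((Maps p F V).ncard : ℚ) / (3 ^ F * F.factorial)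
  else if Fintype.card ι = 1 ∧ F = 0 ∧ V = 1 then 1 else 0

/-- The same for a list of perimeters. -/
noncomputable def muL (P : List ℕ) (F V : ℕ) : ℚ := mu (fun i : Fin P.length => P.get i) F V

/-! ## Explored regions -/

/-- A partial triangulation with darts in `D`: the revealed faces are the 3-cycles of `f`, the revealed
edges are the 2-cycles of `a`, every revealed edge has both faces revealed. -/
structure Part (D : Type) where
  a : Equiv.Perm D
  f : Equiv.Perm D
  aa : ∀ d, a (a d) = d
  fff : ∀ d, f (f (f d)) = d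
  af : ∀ d, f d = d → a d = d

namespace Part

variable {D : Type}

/-- Revealed darts. -/
def R (S : Part D) : Set D := {d | S.f d ≠ d}

/-- Boundary darts: the face is revealed, the edge is not. -/
def B (S : Part D) : Set D := {d | S.f d ≠ d ∧ S.a d = d}

/-- Its cycles are the inner vertices, the holes (those which meet `B`; the perimeter is the number of
elements of `B` in the cycle) and the unrevealed darts (fixed points). -/
def s (S : Part D) : Equiv.Perm D := S.f * S.a

/-- `e` is the boundary dart after `d`. -/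
def Nxt (S : Part D) (d e : D) : Prop :=
  ∃ j : ℕ, e = (S.s ^ (j + 1)) d ∧ e ∈ S.B ∧ ∀ i < j, (S.s ^ (i + 1)) d ∉ S.B

/-- The hole of the boundary dart `d`. -/
def hole (S : Part D) (d : D) : Set D := {e | e ∈ S.B ∧ S.s.SameCycle d e}

/-- Perimeter of the hole of `d`. -/
noncomputable def per (S : Part D) (d : D) : ℕ := (S.hole d).ncard

/-- Number of inner vertices. -/
noncomputable def inn (S : Part D) : ℕ :=
  Nat.card {q : Quotient (Equiv.Perm.SameCycle.setoid S.s) //
    ∃ d, Quotient.mk _ d = q ∧ d ∈ S.R ∧ ∀ e, S.s.SameCycle d e → e ∉ S.B}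

/-- `T` extends `S`. -/
def Le (S : Part D) (T : Tri D) : Prop :=
  (∀ d, S.f d ≠ d → T.f d = S.f d) ∧ ∀ d, S.a d ≠ d → T.a d = S.a d

/-- `S'` extends `S`. -/
def Sub (S S' : Part D) : Prop :=
  (∀ d, S.f d ≠ d → S'.f d = S.f d) ∧ ∀ d, S.a d ≠ d → S'.a d = S.a d

/-- The triangulations of genus `g` with `2 n` faces which extend `S`. -/
def Ext {n : ℕ} (S : Part (Fin (6 * n))) (g : ℕ) : Set (Tri (Fin (6 * n))) :=
  {T | T ∈ Trn n g ∧ S.Le T}

end Part

/-! ## Distances -/

/-- There is a walk of length at most `k` from `u` to `v`. -/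
def Dle {D : Type} (T : Tri D) (k : ℕ) (u v : T.V) : Prop :=
  ∃ l : List D, T.IsWalk u l v ∧ l.length ≤ k

/-! ## Targets -/

/-- Probability that the uniform rooted triangulation of genus `g` with `2 n` faces has the property. -/
noncomputable def Pr {n g : ℕ} (A : RTri n g → Prop) : ℝ :=
  (Nat.card {q : RTri n g // A q} : ℝ) / Nat.card (RTri n g)

/-- T1: `sepsys / log n → S` in probability. -/
def SepLim (θ S : ℝ) : Prop :=
  ∀ g : ℕ → ℕ, Tendsto (fun n => (g n : ℝ) / n) atTop (𝓝 θ) → ∀ ε : ℝ, 0 < ε →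
    Tendsto (fun n => Pr (n := n) (g := g n) fun q => q.HasSep ((S - ε) * Real.log n)) atTop (𝓝 0) ∧
    Tendsto (fun n => Pr (n := n) (g := g n) fun q => q.HasSep ((S + ε) * Real.log n)) atTop (𝓝 1)

/-- T2: `sepsys* / log n → S` in probability. -/
def SSCLim (θ S : ℝ) : Prop :=
  ∀ g : ℕ → ℕ, Tendsto (fun n => (g n : ℝ) / n) atTop (𝓝 θ) → ∀ ε : ℝ, 0 < ε →
    Tendsto (fun n => Pr (n := n) (g := g n) fun q => q.HasSSC ((S - ε) * Real.log n)) atTop (𝓝 0) ∧
    Tendsto (fun n => Pr (n := n) (g := g n) fun q => q.HasSSC ((S + ε) * Real.log n)) atTop (𝓝 1)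

/-- The full question for `θ`. -/
def Full (θ : ℝ) : Prop := ∃ S S' : ℝ, 0 < S ∧ S < S' ∧ SepLim θ S ∧ SSCLim θ S'

end SYS
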