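import Pool.Agent.SYS.Goal
import Pool.Agent.SYS.US.T3
import Pool.Agent.SYS.GS.Main

/-!
# Project SYS: the final assembly

`fin_of`: the final form from `LowG` (T1) and `US.T2In` (the inputs of T2: GRW, (B2), (B3), lower bound).
-/

namespace SYS

open Filter Topology SST SYS.Num SYS.US

theorem fin_of {θ : ℝ} (hθ : 0 < θ) (hθ' : θ < 1 / 2) (hG : ∀ x : ℝ, Par θ x → LowG θ x)
    (hT : ∀ x : ℝ, Par θ x → T2In θ) :
    ∃ x : ℝ, (0 < x ∧ 3 * x * Real.cosh x = (1 - 2 * θ) * (Real.sinh x * (Real.cosh x ^ 2 + 2))) ∧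
      (∀ y : ℝ, 0 < y → 3 * y * Real.cosh y = (1 - 2 * θ) * (Real.sinh y * (Real.cosh y ^ 2 + 2)) → y = x) ∧
      ∃ S' : ℝ, 1 / x < S' ∧ ∀ g : ℕ → ℕ, Tendsto (fun n => (g n : ℝ) / n) atTop (𝓝 θ) → ∀ ε : ℝ, 0 < ε →
        Tendsto (fun n : ℕ => (Nat.card {q : RTri n (g n) //
          (¬ q.HasSep ((1 / x - ε) * Real.log n) ∧ q.HasSep ((1 / x + ε) * Real.log n)) ∧
          (¬ q.HasSSC ((S' - ε) * Real.log n) ∧ q.HasSSC ((S' + ε) * Real.log n))} : ℝ) / Nat.card (RTri n (g n)))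
          atTop (𝓝 1) := by
  refine full_form hθ hθ' (fun x hx => t1_of hx (hG x hx)) fun x hx => ?_
  obtain ⟨S', hS', h1, h2⟩ := t2_fin hx (hT x hx)
  exact ⟨S', GS.gap hx (hG x hx) (fun ε hε => low_ps hx (hG x hx) ε hε) h1, sscLim h1 h2⟩

end SYS
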