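import Pool.Agent.SYS.Fin
import Pool.Agent.SYS.LO.Low
import Pool.Agent.SYS.CF.T2
import Pool.Agent.SYS.NS.Main
import Pool.Agent.SYS.GW.Out

/-!
# Project SYS: the full answer to Q1 of MP_650813_pr
-/

namespace SYS

open Filter Topology SST SYS.Num

theorem t2In_all {θ x : ℝ} (h : Par θ x) : US.T2In θ :=
  CF.t2in_of_pair h (NS.pair_of h one_pos (by norm_num) (GW.grwB h))

theorem full {θ : ℝ} (hθ : 0 < θ) (hθ' : θ < 1 / 2) :
    ∃ x : ℝ, (0 < x ∧ 3 * x * Real.cosh x = (1 - 2 * θ) * (Real.sinh x * (Real.cosh x ^ 2 + 2))) ∧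
      (∀ y : ℝ, 0 < y → 3 * y * Real.cosh y = (1 - 2 * θ) * (Real.sinh y * (Real.cosh y ^ 2 + 2)) → y = x) ∧
      ∃ S' : ℝ, 1 / x < S' ∧ ∀ g : ℕ → ℕ, Tendsto (fun n => (g n : ℝ) / n) atTop (𝓝 θ) → ∀ ε : ℝ, 0 < ε →
        Tendsto (fun n : ℕ => (Nat.card {q : RTri n (g n) //
          (¬ q.HasSep ((1 / x - ε) * Real.log n) ∧ q.HasSep ((1 / x + ε) * Real.log n)) ∧
          (¬ q.HasSSC ((S' - ε) * Real.log n) ∧ q.HasSSC ((S' + ε) * Real.log n))} : ℝ) / Nat.card (RTri n (g n)))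
          atTop (𝓝 1) :=
  fin_of hθ hθ' (fun _ hx => LO.lowG hx) fun _ hx => t2In_all hx

end SYS
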