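import Pool.Agent.SYS.Joint
import Pool.Agent.SYS.RB.Out

/-!
# Project SYS: the final form

`full_form`: from the two limits (`h1`: T1, `h2`: T2 and the gap) for every `θ` with its parameter `x`.
-/

namespace SYS

open Filter Topology SST SYS.Num

theorem full_form {θ : ℝ} (hθ : 0 < θ) (hθ' : θ < 1 / 2) (h1 : ∀ x : ℝ, Par θ x → SepLim θ (1 / x))
    (h2 : ∀ x : ℝ, Par θ x → ∃ S' : ℝ, 1 / x < S' ∧ SSCLim θ S') :
    ∃ x : ℝ, (0 < x ∧ 3 * x * Real.cosh x = (1 - 2 * θ) * (Real.sinh x * (Real.cosh x ^ 2 + 2))) ∧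
      (∀ y : ℝ, 0 < y → 3 * y * Real.cosh y = (1 - 2 * θ) * (Real.sinh y * (Real.cosh y ^ 2 + 2)) → y = x) ∧
      ∃ S' : ℝ, 1 / x < S' ∧ ∀ g : ℕ → ℕ, Tendsto (fun n => (g n : ℝ) / n) atTop (𝓝 θ) → ∀ ε : ℝ, 0 < ε →
        Tendsto (fun n : ℕ => (Nat.card {q : RTri n (g n) //
          (¬ q.HasSep ((1 / x - ε) * Real.log n) ∧ q.HasSep ((1 / x + ε) * Real.log n)) ∧
          (¬ q.HasSSC ((S' - ε) * Real.log n) ∧ q.HasSSC ((S' + ε) * Real.log n))} : ℝ) / Nat.card (RTri n (g n)))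
          atTop (𝓝 1) := by
  obtain ⟨x, hx⟩ := RB.exists_par hθ hθ'
  obtain ⟨S', hS, hS'⟩ := h2 x hx
  exact ⟨x, ⟨hx.2.2.1, hx.2.2.2⟩, fun y hy he => RB.par_unique ⟨hθ, hθ', hy, he⟩ hx, S', hS,
    fun g hg ε hε => both (h1 x hx) hS' g hg ε hε⟩

end SYS
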