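import Pool.Agent.SYS.Joint
import Pool.Agent.SYS.RB.Out
import Pool.Agent.SYS.LO.Low
import Pool.Agent.SYS.LA.T1L

/-!
# Project SYS: the final form of T1 (the separating systole)
-/

namespace SYS

open Filter Topology SST SYS.Num

/-- Convergence in probability of `sepsys / log n`. -/
theorem one {θ S : ℝ} (h1 : SepLim θ S) (g : ℕ → ℕ) (hg : Tendsto (fun n => (g n : ℝ) / n) atTop (𝓝 θ))
    (ε : ℝ) (hε : 0 < ε) : Tendsto (fun n : ℕ => (Nat.card {q : RTri n (g n) //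
      ¬ q.HasSep ((S - ε) * Real.log n) ∧ q.HasSep ((S + ε) * Real.log n)} : ℝ) / Nat.card (RTri n (g n)))
      atTop (𝓝 1) := by
  obtain ⟨a1, a2⟩ := h1 g hg ε hε
  exact pr_and (pr_compl a1 a2) a2

theorem t1_form {θ : ℝ} (hθ : 0 < θ) (hθ' : θ < 1 / 2) :
    ∃ x : ℝ, (0 < x ∧ 3 * x * Real.cosh x = (1 - 2 * θ) * (Real.sinh x * (Real.cosh x ^ 2 + 2))) ∧
      (∀ y : ℝ, 0 < y → 3 * y * Real.cosh y = (1 - 2 * θ) * (Real.sinh y * (Real.cosh y ^ 2 + 2)) → y = x) ∧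
      ∀ g : ℕ → ℕ, Tendsto (fun n => (g n : ℝ) / n) atTop (𝓝 θ) → ∀ ε : ℝ, 0 < ε →
        Tendsto (fun n : ℕ => (Nat.card {q : RTri n (g n) //
          ¬ q.HasSep ((1 / x - ε) * Real.log n) ∧ q.HasSep ((1 / x + ε) * Real.log n)} : ℝ) / Nat.card (RTri n (g n)))
          atTop (𝓝 1) := by
  obtain ⟨x, hx⟩ := RB.exists_par hθ hθ'
  exact ⟨x, ⟨hx.2.2.1, hx.2.2.2⟩, fun y hy he => RB.par_unique ⟨hθ, hθ', hy, he⟩ hx,
    fun g hg ε hε => one (t1_of hx (LO.lowG hx)) g hg ε hε⟩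

end SYS
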