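import Pool.Agent.SYS.T1

/-!
# Project SYS: the two limits in one statement
-/

namespace SYS

open Filter Topology SST SYS.Num

private theorem pr_inter {n g : ℕ} (A B : RTri n g → Prop) : Pr A + Pr B - 1 ≤ Pr fun q => A q ∧ B q := by
  classical
  unfold Pr
  rcases Nat.eq_zero_or_pos (Nat.card (RTri n g)) with h0 | h0
  · rw [h0]
    norm_num
  · have hf : Finite (RTri n g) := (Nat.card_pos_iff.1 h0).2
    have hpos : (0 : ℝ) < (Nat.card (RTri n g) : ℝ) := by exact_mod_cast h0
    have h1 : Nat.card {q : RTri n g // A q} + Nat.card {q : RTri n g // B q} ≤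
        Nat.card (RTri n g) + Nat.card {q : RTri n g // A q ∧ B q} := by
      have e1 : Nat.card {q : RTri n g // A q} = {q : RTri n g | A q}.ncard := rfl
      have e2 : Nat.card {q : RTri n g // B q} = {q : RTri n g | B q}.ncard := rfl
      have e3 : Nat.card {q : RTri n g // A q ∧ B q} = ({q : RTri n g | A q} ∩ {q : RTri n g | B q}).ncard := rfl
      have e4 := Set.ncard_union_add_ncard_inter {q : RTri n g | A q} {q : RTri n g | B q} (Set.toFinite _) (Set.toFinite _)
      have e5 := Set.ncard_le_card ({q : RTri n g | A q} ∪ {q : RTri n g | B q})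
      rw [e1, e2, e3]
      omega
    rw [← add_div, div_sub_one hpos.ne', div_le_div_iff_of_pos_right hpos]
    have h2 : (Nat.card {q : RTri n g // A q} : ℝ) + (Nat.card {q : RTri n g // B q} : ℝ) ≤
        (Nat.card (RTri n g) : ℝ) + (Nat.card {q : RTri n g // A q ∧ B q} : ℝ) := by exact_mod_cast h1
    linarith

private theorem pr_le {n g : ℕ} (A : RTri n g → Prop) : Pr A ≤ 1 := by
  unfold Pr
  rcases Nat.eq_zero_or_pos (Nat.card (RTri n g)) with h0 | h0
  · rw [h0]
    norm_num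
  · have hf : Finite (RTri n g) := (Nat.card_pos_iff.1 h0).2
    have hpos : (0 : ℝ) < (Nat.card (RTri n g) : ℝ) := by exact_mod_cast h0
    rw [div_le_one hpos]
    exact_mod_cast Nat.card_le_card_of_injective (Subtype.val : {q : RTri n g // A q} → RTri n g) Subtype.val_injective

private theorem pr_not {n g : ℕ} (A : RTri n g → Prop) (h : Nat.card (RTri n g) ≠ 0) : Pr (fun q => ¬ A q) = 1 - Pr A := by
  classical
  unfold Pr
  have h0 : 0 < Nat.card (RTri n g) := Nat.pos_of_ne_zero h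
  have hf : Finite (RTri n g) := (Nat.card_pos_iff.1 h0).2
  have hpos : (0 : ℝ) < (Nat.card (RTri n g) : ℝ) := by exact_mod_cast h0
  rw [eq_sub_iff_add_eq, ← add_div, div_eq_one_iff_eq hpos.ne']
  have e1 : Nat.card {q : RTri n g // A q} = {q : RTri n g | A q}.ncard := rfl
  have e2 : Nat.card {q : RTri n g // ¬ A q} = {q : RTri n g | A q}ᶜ.ncard := rfl
  have e3 := Set.ncard_add_ncard_compl {q : RTri n g | A q}
  rw [e1, e2]
  have e4 : ({q : RTri n g | A q}ᶜ.ncard : ℝ) + ({q : RTri n g | A q}.ncard : ℝ) = (Nat.card (RTri n g) : ℝ) := by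
    rw [add_comm]
    exact_mod_cast e3
  exact e4

theorem pr_and {g : ℕ → ℕ} {A B : ∀ n, RTri n (g n) → Prop} (hA : Tendsto (fun n => Pr (A n)) atTop (𝓝 1))
    (hB : Tendsto (fun n => Pr (B n)) atTop (𝓝 1)) : Tendsto (fun n => Pr fun q => A n q ∧ B n q) atTop (𝓝 1) := by
  refine tendsto_of_tendsto_of_tendsto_of_le_of_le ?_ tendsto_const_nhds (fun n => pr_inter (A n) (B n)) fun n => pr_le _
  have := (hA.add hB).sub_const 1
  norm_num at this
  exact this

theorem pr_compl {g : ℕ → ℕ} {A B : ∀ n, RTri n (g n) → Prop} (hA : Tendsto (fun n => Pr (A n)) atTop (𝓝 0))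
    (hB : Tendsto (fun n => Pr (B n)) atTop (𝓝 1)) : Tendsto (fun n => Pr fun q => ¬ A n q) atTop (𝓝 1) := by
  have h1 := hA.const_sub 1
  rw [sub_zero] at h1
  refine h1.congr' ?_
  filter_upwards [hB.eventually (lt_mem_nhds (show (0 : ℝ) < 1 by norm_num))] with n hn
  refine (pr_not (A n) ?_).symm
  intro h0
  unfold Pr at hn
  rw [h0] at hn
  norm_num at hn

/-- Both limits: with probability tending to one `sepsys` and `sepsys*` are in the windows. -/
theorem both {θ S S' : ℝ} (h1 : SepLim θ S) (h2 : SSCLim θ S') (g : ℕ → ℕ) (hg : Tendsto (fun n => (g n : ℝ) / n) atTop (𝓝 θ))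
    (ε : ℝ) (hε : 0 < ε) : Tendsto (fun n : ℕ => (Nat.card {q : RTri n (g n) //
      (¬ q.HasSep ((S - ε) * Real.log n) ∧ q.HasSep ((S + ε) * Real.log n)) ∧
      (¬ q.HasSSC ((S' - ε) * Real.log n) ∧ q.HasSSC ((S' + ε) * Real.log n))} : ℝ) / Nat.card (RTri n (g n)))
      atTop (𝓝 1) := by
  obtain ⟨a1, a2⟩ := h1 g hg ε hε
  obtain ⟨b1, b2⟩ := h2 g hg ε hε
  exact pr_and (pr_and (pr_compl a1 a2) a2) (pr_and (pr_compl b1 b2) b2)

end SYS
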